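import Pool.Agent.H614R2.DPO.Final

/-!
# Distance-preserving orientations for a fixed number of pairs, in polynomial time
-/

namespace Pool.Agent.Results.MP_74cd3a_lc.DistPreservingInP

open Pool.Agent.NPC Pool.Agent.H614R2.DPO

/-- For every `k` there is a polynomial-time algorithm which decides, for an undirected graph with
nonnegative rational edge lengths and `k` pairs `(s i, t i)` of vertices, whether some orientation
of the graph preserves the distances from `s i` to `t i` for all `i`. -/
theorem result (k : ℕ) : ∃ D : List Bool → List Bool, PolyTime D ∧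
    ∀ (n : ℕ) (G : SimpleGraph (Fin n)) (len : Sym2 (Fin n) → ℚ) (s t : Fin k → Fin n),
      (∀ e ∈ G.edgeSet, 0 ≤ len e) →
      (D (input G len s t) = [true] ↔ ∃ O : Fin n → Fin n → Prop, IsOrientation G O ∧
        ∀ i, dist O len (s i) (t i) = dist G.Adj len (s i) (t i)) ∧
      (D (input G len s t) = [false] ↔ ¬ ∃ O : Fin n → Fin n → Prop, IsOrientation G O ∧
        ∀ i, dist O len (s i) (t i) = dist G.Adj len (s i) (t i)) := by
  refine ⟨fun x => [match unbits Data x with | none => false | some a => alg k a], ?_, ?_⟩
  · refine polyTime_of_poly ((Poly.optCases (g := fun _ => false) (h := fun _ a => alg k a)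
      poly_unbits (NPC.Poly.const _) ((poly_alg k).comp (Poly.snd Poly.id))).congr fun x => ?_)
    cases unbits Data x <;> rfl
  · intro n G len s t hlen
    have h1 : input G len s t = bits (dataOf G len s t) := rfl
    have h2 := alg_correct G len s t hlen
    dsimp only
    rw [h1, unbits_bits]
    simp only [List.cons.injEq, and_true]
    refine ⟨h2, ?_⟩
    rw [← h2]
    simp

end Pool.Agent.Results.MP_74cd3a_lc.DistPreservingInP
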